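import Pool.Agent.Q283.FT.Stm3
import Pool.Agent.Q162.LK.HS2

/-! Project FT (helper283), job STB (helper124): the relation of Steinberg for the Hilbert symbols, `p = 2`
(template: `Q238.EN.hs22` by helper238). -/

set_option autoImplicit false

namespace Pool.Agent.Q124.FT

open NumberField IsDedekindDomain
open Pool.Agent.Q7.LK
open Pool.Agent.Q162.LK (exists_kum)

/-- JOB STB -/
theorem stb (hB : Pool.Agent.Q7.LK.S_BAS) : Pool.Agent.Q283.FT.S_STB := by
  intro F _ _ i0 ζ hi hζ t ht v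
  have hp : Nat.Prime 2 := Nat.prime_two
  have neg2 : ∀ x : ZMod 2, -x = x := by decide
  have add2 : ∀ x : ZMod 2, x + x = 0 := by decide
  have mul := ht.mul v
  have sym : ∀ a c, a ≠ 0 → c ≠ 0 → t v a c = t v c a := fun a c ha hc => by
    rw [ht.anti v a c ha hc, neg2]
  have mulc : ∀ a b c, a ≠ 0 → b ≠ 0 → c ≠ 0 → t v a (b * c) = t v a b + t v a c := by
    intro a b c ha hb hc
    rw [sym a _ ha (mul_ne_zero hb hc), mul b c a hb hc ha, sym b a hb ha, sym c a hc ha]
  have onec : ∀ a, a ≠ 0 → t v a 1 = 0 := by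
    intro a ha
    have h := mulc a 1 1 ha one_ne_zero one_ne_zero
    rw [mul_one] at h
    exact left_eq_add.1 h
  have invc : ∀ a c, a ≠ 0 → c ≠ 0 → t v a c⁻¹ = t v a c := by
    intro a c ha hc
    have h := mulc a c c⁻¹ ha hc (inv_ne_zero hc)
    rw [mul_inv_cancel₀ hc, onec a ha] at h
    rw [← neg2 (t v a c)]
    exact eq_neg_of_add_eq_zero_right h.symm
  have powc : ∀ a c, a ≠ 0 → c ≠ 0 → t v a (c ^ 2) = 0 := by
    intro a c ha hc
    rw [pow_two, mulc a c c ha hc hc, add2]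
  have stein : ∀ a b, a ≠ 0 → b ≠ 0 → a + b = 1 → t v b a = 0 := by
    intro a b ha hb hab
    by_cases hpw : IsPow 2 a
    · obtain ⟨s, hs⟩ := hpw
      have hs0 : s ≠ 0 := by
        rintro rfl
        rw [zero_pow hp.ne_zero] at hs
        exact ha hs
      rw [hs]
      exact powc b s hb hs0
    · obtain ⟨M, _, _, _, hM, y, hy⟩ := exists_kum (F := F) 2 hpw
      have hb' : Algebra.norm F y = b := by
        rw [hy, ← hab]
        ring
      have hy0 : y ≠ 0 := by
        rintro rfl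
        have : Nontrivial M := inferInstance
        have : FiniteDimensional F M := by
          refine FiniteDimensional.of_finrank_pos ?_
          rw [hM.deg]
          exact hp.pos
        rw [Algebra.norm_zero] at hb'
        exact hb hb'.symm
      rw [← hb']
      exact ht.nrm a ha M hM y hy0 v
  have neg1 : ∀ c, c ≠ 0 → t v (-1) c = 0 := by
    intro c hc
    refine ht.pow v _ c ?_ hc
    have hi0 : i0 ≠ 0 := by
      rintro rfl
      norm_num at hi
    have h := (hB 2 F v).2.2.1 i0 hi0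
    rwa [hi] at h
  have diag : ∀ a, a ≠ 0 → t v a a = 0 := by
    intro a ha
    by_cases ha1 : a = 1
    · rw [ha1]
      exact onec 1 one_ne_zero
    have h1a : (1 - a) ≠ 0 := sub_ne_zero.2 (Ne.symm ha1)
    have h1a' : (1 - a⁻¹) ≠ 0 := by
      rw [sub_ne_zero]
      intro h
      apply ha1
      rw [← inv_inv a, ← h, inv_one]
    have e1 := stein a (1 - a) ha h1a (by ring)
    have e2 := stein a⁻¹ (1 - a⁻¹) (inv_ne_zero ha) h1a' (by ring)
    rw [invc _ a h1a' ha] at e2
    have e3 : 1 - a = -a * (1 - a⁻¹) := by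
      field_simp
      ring
    rw [e3, mul (-a) (1 - a⁻¹) a (neg_ne_zero.2 ha) h1a' ha, e2, add_zero] at e1
    have e4 : -a = -1 * a := by ring
    rw [e4, mul (-1) a a (by norm_num) ha ha, neg1 a ha, zero_add] at e1
    exact e1
  refine ⟨diag, ?_⟩
  intro A B C hA hB' hC hAB
  have hAC : A * C⁻¹ ≠ 0 := mul_ne_zero hA (inv_ne_zero hC)
  have hBC : B * C⁻¹ ≠ 0 := mul_ne_zero hB' (inv_ne_zero hC)
  have h := stein (A * C⁻¹) (B * C⁻¹) hAC hBC (by
    rw [← add_mul, hAB, mul_inv_cancel₀ hC])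
  have hC' := inv_ne_zero hC
  rw [mulc _ A C⁻¹ hBC hA hC', invc _ C hBC hC, mul B C⁻¹ A hB' hC' hA, mul B C⁻¹ C hB' hC' hC,
    sym C⁻¹ A hC' hA, invc A C hA hC, sym C⁻¹ C hC' hC, invc C C hC hC, diag C hC, add_zero] at h
  rw [sym A B hA hB']
  -- h : t B A + t A C + t B C = 0
  have h2 : ∀ x y z : ZMod 2, x + y + z = 0 → x = y + z := by decide
  exact h2 _ _ _ h

end Pool.Agent.Q124.FT
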